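import Pool.Agent.P8H59.An.Stm

/-!
# Package FFM: matrices with irreducible characteristic polynomial over a finite field
-/

set_option autoImplicit false

open Polynomial

namespace Pool.Agent.P8H48.An

/-- **Package FFM** -/
theorem ffm : Pool.Agent.P8H59.An.S_FFM := by
  intro p _ ι _ _ _
  classical
  have hm : Fintype.card ι ≠ 0 := Fintype.card_ne_zero
  let K := GaloisField p (Fintype.card ι)
  let pb : PowerBasis (ZMod p) K := Field.powerBasisOfFiniteOfSeparable (ZMod p) K
  have hdim : Fintype.card (Fin pb.dim) = Fintype.card ι := by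
    rw [Fintype.card_fin, ← pb.finrank]
    exact GaloisField.finrank p hm
  let e : Fin pb.dim ≃ ι := Fintype.equivOfCardEq hdim
  refine ⟨Matrix.reindex e e (Algebra.leftMulMatrix pb.basis pb.gen), ?_⟩
  rw [Matrix.charpoly_reindex, charpoly_leftMulMatrix]
  exact minpoly.irreducible (IsIntegral.of_finite (ZMod p) pb.gen)

end Pool.Agent.P8H48.An
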