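import Pool.Agent.P8H59.An.Stm
import Pool.Agent.W976.MF.SPL

/-!
# Package PAD: points over `ℚ_p`

A nonzero finitely generated `ℚ`-algebra has a point over some `ℚ_p`.
-/

set_option autoImplicit false

open Polynomial

namespace Pool.Agent.P8H48.An

/-- a separable nonconstant rational polynomial has a root in some `ℚ_p` -/
theorem exists_padic_root (f0 : ℚ[X]) (hdeg : 0 < f0.natDegree) (hsep : f0.Separable) :
    ∃ (p : ℕ) (_ : Fact p.Prime) (z : ℚ_[p]), aeval z f0 = 0 := by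
  classical
  obtain ⟨D, f, hD, hf⟩ := Pool.Agent.W976.MF.clear_den f0
  have hDq : (D : ℚ) ≠ 0 := by exact_mod_cast hD
  have hfdeg : 0 < f.natDegree := by
    have h1 : (f.map (Int.castRingHom ℚ)).natDegree = f.natDegree :=
      natDegree_map_eq_of_injective (Int.cast_injective) f
    rw [← h1, hf, natDegree_C_mul hDq]
    exact hdeg
  -- a Bezout identity
  obtain ⟨u, v, N0, hN0, huv⟩ : ∃ (u v : ℤ[X]) (N0 : ℕ), N0 ≠ 0 ∧
      u * f + v * derivative f = C (N0 : ℤ) := by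
    obtain ⟨a, b, hab⟩ := hsep
    obtain ⟨Da, pa, hDa, hpa⟩ := Pool.Agent.W976.MF.clear_den a
    obtain ⟨Db, pb, hDb, hpb⟩ := Pool.Agent.W976.MF.clear_den b
    refine ⟨C (Db : ℤ) * pa, C (Da : ℤ) * pb, Da * Db * D,
      mul_ne_zero (mul_ne_zero hDa hDb) hD, ?_⟩
    apply Polynomial.map_injective (Int.castRingHom ℚ) Int.cast_injective
    have e : ∀ n : ℕ, (Int.castRingHom ℚ) (n : ℤ) = (n : ℚ) := fun n => by simp
    have h3 : (C ((Da : ℚ) * Db * D) : ℚ[X]) = C ((Da : ℚ) * Db * D) * 1 := by rw [mul_one]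
    rw [Polynomial.map_add, Polynomial.map_mul, Polynomial.map_mul, Polynomial.map_mul,
      Polynomial.map_mul, map_C, map_C, map_C, ← derivative_map, hf, hpa, hpb, e, e, e,
      Nat.cast_mul, Nat.cast_mul, h3, ← hab, derivative_C_mul]
    simp only [C_mul]
    ring
  obtain ⟨l, hl, hlS, a, hla⟩ := Pool.Agent.W976.MF.schur f hfdeg N0.primeFactors
  have hF : Fact l.Prime := ⟨hl⟩
  have hlN : ¬ l ∣ N0 := fun h => hlS (Nat.mem_primeFactors.2 ⟨hl, h, hN0⟩)
  have hder : ¬ (l : ℤ) ∣ (derivative f).eval a := by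
    intro h
    apply hlN
    have h1 := congrArg (fun g => eval a g) huv
    simp only [eval_add, eval_mul, eval_C] at h1
    have h2 : (l : ℤ) ∣ (N0 : ℤ) := by
      rw [← h1]
      exact dvd_add (Dvd.dvd.mul_left hla _) (Dvd.dvd.mul_left h _)
    exact_mod_cast h2
  have e1 : aeval ((a : ℤ) : ℤ_[l]) f = ((f.eval a : ℤ) : ℤ_[l]) := by
    rw [aeval_def]
    exact Polynomial.eval₂_at_apply (algebraMap ℤ ℤ_[l]) a
  have e2 : aeval ((a : ℤ) : ℤ_[l]) (derivative f) = (((derivative f).eval a : ℤ) : ℤ_[l]) := by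
    rw [aeval_def]
    exact Polynomial.eval₂_at_apply (algebraMap ℤ ℤ_[l]) a
  have n1 : ‖aeval ((a : ℤ) : ℤ_[l]) f‖ < 1 := by
    rw [e1, PadicInt.norm_int_lt_one_iff_dvd]
    exact hla
  have n2 : ‖aeval ((a : ℤ) : ℤ_[l]) (derivative f)‖ = 1 := by
    rw [e2]
    refine le_antisymm (PadicInt.norm_le_one _) (not_lt.mp fun h => hder ?_)
    rwa [PadicInt.norm_int_lt_one_iff_dvd] at h
  obtain ⟨z, hz, -⟩ := hensels_lemma (F := f) (a := ((a : ℤ) : ℤ_[l])) (by rw [n2]; simpa using n1)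
  refine ⟨l, hF, (z : ℚ_[l]), ?_⟩
  have h4 : aeval (z : ℚ_[l]) f = 0 := by
    have h5 : aeval (z : ℚ_[l]) f = ((aeval z f : ℤ_[l]) : ℚ_[l]) := by
      rw [aeval_def, aeval_def]
      have h6 := Polynomial.hom_eval₂ f (algebraMap ℤ ℤ_[l]) (PadicInt.Coe.ringHom) z
      have h7 : (PadicInt.Coe.ringHom).comp (algebraMap ℤ ℤ_[l]) = algebraMap ℤ ℚ_[l] :=
        RingHom.ext_int _ _
      rw [h7] at h6
      exact h6.symm
    rw [h5, hz]
    simp
  have h5 : aeval (z : ℚ_[l]) (f.map (Int.castRingHom ℚ)) = 0 := by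
    rw [aeval_def, eval₂_map]
    have h7 : (algebraMap ℚ ℚ_[l]).comp (Int.castRingHom ℚ) = algebraMap ℤ ℚ_[l] :=
      RingHom.ext_int _ _
    rw [h7, ← aeval_def]
    exact h4
  rw [hf, map_mul, aeval_C] at h5
  rcases mul_eq_zero.mp h5 with h6 | h6
  · exfalso
    rw [map_eq_zero] at h6
    exact hDq h6
  · exact h6

/-- **Package PAD** -/
theorem pad : Pool.Agent.P8H59.An.S_PAD := by
  intro A _ _ _ _
  classical
  obtain ⟨m, hm⟩ := Ideal.exists_maximal A
  let _ : Field (A ⧸ m) := Ideal.Quotient.field m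
  have hfin : Module.Finite ℚ (A ⧸ m) := by
    have hft : Algebra.FiniteType ℚ (A ⧸ m) :=
      Algebra.FiniteType.of_surjective (Ideal.Quotient.mkₐ ℚ m)
        (Ideal.Quotient.mkₐ_surjective ℚ m)
    exact finite_of_finite_type_of_isJacobsonRing ℚ (A ⧸ m)
  let pb : PowerBasis ℚ (A ⧸ m) := Field.powerBasisOfFiniteOfSeparable ℚ (A ⧸ m)
  have hint : IsIntegral ℚ pb.gen := IsIntegral.of_finite ℚ pb.gen
  obtain ⟨p, hp, z, hz⟩ := exists_padic_root (minpoly ℚ pb.gen) (minpoly.natDegree_pos hint)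
    (minpoly.irreducible hint).separable
  exact ⟨p, hp, ⟨(pb.lift z hz).comp (Ideal.Quotient.mkₐ ℚ m)⟩⟩

end Pool.Agent.P8H48.An
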