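import Pool.Agent.P8H59.An.Stm

/-!
# Package UNI: units of totally real étale algebras
-/

set_option autoImplicit false

open Polynomial

namespace Pool.Agent.P8H48.An

namespace Uni

open NumberField

/-- a unit which is small at all real places except one -/
theorem unit_lemma (K : Type) [Field K] [NumberField K] (s1 : K →+* ℝ) :
    ∃ u : (𝓞 K)ˣ, (∀ s : K →+* ℝ, s ≠ s1 → Real.log |s (u : K)| < 0) ∧
      (∀ s : K →+* ℝ, s ≠ s1 → 0 < Real.log |s1 (u : K)|) ∧
      (∀ s t : K →+* ℝ, s ≠ s1 → t ≠ s1 → s ≠ t →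
        0 < Real.log |s1 (u : K)| + Real.log |s (u : K)|) := by
  classical
  let pl : (K →+* ℝ) → InfinitePlace K := fun s => InfinitePlace.mk (Complex.ofRealHom.comp s)
  have hreal : ∀ s : K →+* ℝ, ComplexEmbedding.IsReal (Complex.ofRealHom.comp s) := by
    intro s
    rw [ComplexEmbedding.isReal_iff]
    ext x
    simp [ComplexEmbedding.conjugate_coe_eq]
  have hpl : ∀ s (x : K), pl s x = |s x| := by
    intro s x
    show InfinitePlace.mk (Complex.ofRealHom.comp s) x = _
    rw [InfinitePlace.apply]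
    simp
  have hmult : ∀ s, (pl s).mult = 1 := by
    intro s
    apply InfinitePlace.IsReal.mult_eq_one
    exact InfinitePlace.isReal_mk_iff.mpr (hreal s)
  have hinj : ∀ s t, pl s = pl t → s = t := by
    intro s t h
    have h1 : Complex.ofRealHom.comp s = Complex.ofRealHom.comp t := by
      rcases InfinitePlace.mk_eq_iff.mp h with h2 | h2
      · exact h2
      · rw [ComplexEmbedding.isReal_iff.mp (hreal s)] at h2
        exact h2
    ext x
    have h2 := congrArg (fun φ => φ x) h1
    simpa using h2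
  obtain ⟨u, hu⟩ := NumberField.Units.dirichletUnitTheorem.exists_unit (K := K) (pl s1)
  have hsum := NumberField.Units.sum_mult_mul_log u
  have hneg : ∀ w : InfinitePlace K, w ≠ pl s1 → (w.mult : ℝ) * Real.log (w u) < 0 := by
    intro w hw
    have h1 : (0 : ℝ) < w.mult := by exact_mod_cast InfinitePlace.mult_pos
    exact mul_neg_of_pos_of_neg h1 (hu w hw)
  rw [← Finset.add_sum_erase _ _ (Finset.mem_univ (pl s1))] at hsum
  rw [hmult, hpl] at hsum
  have hlog : ∀ s : K →+* ℝ, s ≠ s1 → Real.log |s (u : K)| < 0 := by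
    intro s hs
    have h1 := hu (pl s) (fun h => hs (hinj _ _ h))
    rwa [hpl] at h1
  refine ⟨u, hlog, ?_, ?_⟩
  · intro s hs
    have hs' : pl s ≠ pl s1 := fun h => hs (hinj _ _ h)
    have h1 : ∑ w ∈ Finset.univ.erase (pl s1), (w.mult : ℝ) * Real.log (w u) < 0 := by
      refine Finset.sum_neg (fun w hw => hneg w (Finset.ne_of_mem_erase hw)) ?_
      exact ⟨pl s, Finset.mem_erase.mpr ⟨hs', Finset.mem_univ _⟩⟩
    push_cast at hsum
    linarith
  · intro s t hs ht hst
    have hs' : pl s ≠ pl s1 := fun h => hs (hinj _ _ h)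
    have ht' : pl t ≠ pl s1 := fun h => ht (hinj _ _ h)
    have hst' : pl t ≠ pl s := fun h => hst (hinj _ _ h).symm
    have hmem : pl s ∈ Finset.univ.erase (pl s1) :=
      Finset.mem_erase.mpr ⟨hs', Finset.mem_univ _⟩
    rw [← Finset.add_sum_erase _ _ hmem, hmult, hpl] at hsum
    have h1 : ∑ w ∈ (Finset.univ.erase (pl s1)).erase (pl s), (w.mult : ℝ) * Real.log (w u)
        < 0 := by
      refine Finset.sum_neg (fun w hw =>
        hneg w (Finset.ne_of_mem_erase (Finset.mem_of_mem_erase hw))) ?_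
      exact ⟨pl t, Finset.mem_erase.mpr ⟨hst', Finset.mem_erase.mpr ⟨ht', Finset.mem_univ _⟩⟩⟩
    push_cast at hsum
    linarith

/-- the number of conjugates -/
theorem card_class {n : ℕ} (P : ℚ[X]) (x : Fin n → ℝ)
    (hP : P.map (algebraMap ℚ ℝ) = ∏ i, (X - C (x i))) (i1 : Fin n) :
    (minpoly ℚ (x i1)).natDegree ≤
      (Finset.univ.filter (fun i => minpoly ℚ (x i) = minpoly ℚ (x i1))).card := by
  classical
  have hprod0 : (∏ i, (X - C (x i)) : ℝ[X]) ≠ 0 :=
    Finset.prod_ne_zero_iff.mpr fun i _ => X_sub_C_ne_zero _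
  have hP0 : P ≠ 0 := by
    rintro rfl
    rw [Polynomial.map_zero] at hP
    exact hprod0 hP.symm
  have hroot : ∀ y : ℝ, aeval y P = 0 ↔ ∃ i, y = x i := by
    intro y
    have h1 : aeval y P = (P.map (algebraMap ℚ ℝ)).eval y := by
      rw [eval_map, aeval_def]
    rw [h1, hP, eval_prod, Finset.prod_eq_zero_iff]
    simp [sub_eq_zero]
  have hx1 : aeval (x i1) P = 0 := (hroot _).mpr ⟨i1, rfl⟩
  have hint : IsIntegral ℚ (x i1) := IsAlgebraic.isIntegral ⟨P, hP0, hx1⟩
  set f := minpoly ℚ (x i1) with hf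
  have hirr : Irreducible f := minpoly.irreducible hint
  have hmon : f.Monic := minpoly.monic hint
  have hdvd : f ∣ P := minpoly.dvd ℚ (x i1) hx1
  have hfm0 : f.map (algebraMap ℚ ℝ) ≠ 0 := (Polynomial.map_ne_zero hirr.ne_zero)
  have hspl : (f.map (algebraMap ℚ ℝ)).Splits := by
    refine Splits.of_dvd (g := ∏ i, (X - C (x i))) ?_ hprod0 ?_
    · exact Splits.prod fun i _ => Splits.X_sub_C _
    · rw [← hP]
      exact Polynomial.map_dvd _ hdvd
  have hnd : (f.map (algebraMap ℚ ℝ)).roots.Nodup :=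
    nodup_roots (hirr.separable.map)
  have h1 : f.natDegree = (f.map (algebraMap ℚ ℝ)).roots.toFinset.card := by
    rw [Multiset.toFinset_card_of_nodup hnd, ← hspl.natDegree_eq_card_roots, natDegree_map]
  rw [h1]
  have h2 : (f.map (algebraMap ℚ ℝ)).roots.toFinset ⊆
      (Finset.univ.filter (fun i => minpoly ℚ (x i) = f)).image x := by
    intro y hy
    rw [Multiset.mem_toFinset, mem_roots hfm0, IsRoot.def, eval_map, ← aeval_def] at hy
    obtain ⟨g, hg⟩ := hdvd
    have hy2 : aeval y P = 0 := by rw [hg, map_mul, hy, zero_mul]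
    obtain ⟨i, hi⟩ := (hroot y).mp hy2
    refine Finset.mem_image.mpr ⟨i, ?_, hi.symm⟩
    rw [Finset.mem_filter]
    refine ⟨Finset.mem_univ _, ?_⟩
    rw [← hi]
    exact (minpoly.eq_of_irreducible_of_monic hirr hy hmon).symm
  exact (Finset.card_le_card h2).trans Finset.card_image_le

/-- the unit of one class -/
theorem class_lemma {n : ℕ} (P : ℚ[X]) (x : Fin n → ℝ) (hx : Function.Injective x)
    (hP : P.map (algebraMap ℚ ℝ) = ∏ i, (X - C (x i))) (i1 : Fin n)
    (hd : 2 ≤ (minpoly ℚ (x i1)).natDegree) :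
    ∃ g : ℚ[X], (∀ i, minpoly ℚ (x i) = minpoly ℚ (x i1) →
        IsIntegral ℤ (aeval (x i) g) ∧ IsIntegral ℤ (aeval (x i) g)⁻¹ ∧
        aeval (x i) g ≠ 0 ∧ |aeval (x i) g| ≠ 1) ∧
      (3 ≤ (minpoly ℚ (x i1)).natDegree → ∀ i j, minpoly ℚ (x i) = minpoly ℚ (x i1) →
        minpoly ℚ (x j) = minpoly ℚ (x i1) → i ≠ j →
        |aeval (x i) g * aeval (x j) g| ≠ 1) := by
  classical
  have hcard := card_class P x hP i1
  have hprod0 : (∏ i, (X - C (x i)) : ℝ[X]) ≠ 0 :=
    Finset.prod_ne_zero_iff.mpr fun i _ => X_sub_C_ne_zero _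
  have hP0 : P ≠ 0 := by
    rintro rfl
    rw [Polynomial.map_zero] at hP
    exact hprod0 hP.symm
  have hroot : aeval (x i1) P = 0 := by
    have h1 : aeval (x i1) P = (P.map (algebraMap ℚ ℝ)).eval (x i1) := by
      rw [eval_map, aeval_def]
    rw [h1, hP, eval_prod, Finset.prod_eq_zero_iff]
    exact ⟨i1, Finset.mem_univ _, by simp⟩
  have hint : IsIntegral ℚ (x i1) := IsAlgebraic.isIntegral ⟨P, hP0, hroot⟩
  set f := minpoly ℚ (x i1) with hf
  have hirr : Irreducible f := minpoly.irreducible hint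
  have : Fact (Irreducible f) := ⟨hirr⟩
  let K := AdjoinRoot f
  have hfd : FiniteDimensional ℚ K := (AdjoinRoot.powerBasis hirr.ne_zero).finite
  have hcz : CharZero K := algebraRat.charZero K
  have hNF : NumberField K := { }
  have hf0 : ∀ i, minpoly ℚ (x i) = f → f.eval₂ (algebraMap ℚ ℝ) (x i) = 0 := by
    intro i hi
    rw [← aeval_def, ← hi]
    exact minpoly.aeval ℚ (x i)
  let S : Fin n → (K →+* ℝ) := fun i =>
    if h : minpoly ℚ (x i) = f then AdjoinRoot.lift (algebraMap ℚ ℝ) (x i) (hf0 i h)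
    else AdjoinRoot.lift (algebraMap ℚ ℝ) (x i1) (hf0 i1 rfl)
  have hS : ∀ i (h : minpoly ℚ (x i) = f) (g : ℚ[X]), S i (AdjoinRoot.mk f g) = aeval (x i) g := by
    intro i h g
    show (if h : minpoly ℚ (x i) = f then AdjoinRoot.lift (algebraMap ℚ ℝ) (x i) (hf0 i h)
      else AdjoinRoot.lift (algebraMap ℚ ℝ) (x i1) (hf0 i1 rfl)) (AdjoinRoot.mk f g) = _
    rw [dif_pos h, AdjoinRoot.lift_mk, aeval_def]
  have hSinj : ∀ i j, minpoly ℚ (x i) = f → minpoly ℚ (x j) = f → i ≠ j → S i ≠ S j := by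
    intro i j hi hj hij h
    apply hij
    apply hx
    have h1 : S i (AdjoinRoot.mk f X) = S j (AdjoinRoot.mk f X) := by rw [h]
    rw [hS i hi, hS j hj, aeval_X, aeval_X] at h1
    exact h1
  obtain ⟨u, hu1, hu2, hu3⟩ := unit_lemma K (S i1)
  obtain ⟨g, hg⟩ := AdjoinRoot.mk_surjective (u : K)
  have hval : ∀ i (h : minpoly ℚ (x i) = f), aeval (x i) g = S i (u : K) := by
    intro i h
    rw [← hg, hS i h]
  -- further members of the class
  have hother : ∃ j, minpoly ℚ (x j) = f ∧ j ≠ i1 := by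
    have h1 : 1 < (Finset.univ.filter (fun i => minpoly ℚ (x i) = f)).card := by omega
    obtain ⟨j, hj, hj1⟩ := Finset.exists_mem_ne h1 i1
    exact ⟨j, (Finset.mem_filter.mp hj).2, hj1⟩
  have hne0 : ∀ i, minpoly ℚ (x i) = f → S i (u : K) ≠ 0 := by
    intro i _ h0
    have h1 : (u : K) = 0 := by
      rw [map_eq_zero] at h0
      exact h0
    exact NumberField.Units.coe_ne_zero u h1
  have hlog : ∀ i, minpoly ℚ (x i) = f → Real.log |S i (u : K)| ≠ 0 := by
    intro i hi
    by_cases h : i = i1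
    · subst h
      obtain ⟨j, hj, hj1⟩ := hother
      exact (hu2 (S j) (hSinj j i hj hi hj1)).ne'
    · exact (hu1 (S i) (hSinj i i1 hi rfl h)).ne
  refine ⟨g, ?_, ?_⟩
  · intro i hi
    rw [hval i hi]
    refine ⟨?_, ?_, hne0 i hi, ?_⟩
    · exact (RingOfIntegers.isIntegral_coe (u : 𝓞 K)).map (S i).toIntAlgHom
    · have h1 : (S i (u : K))⁻¹ = S i ((u⁻¹ : (𝓞 K)ˣ) : K) := by
        rw [inv_eq_of_mul_eq_one_right]
        rw [← map_mul]
        have h2 : ((u : K)) * (((u⁻¹ : (𝓞 K)ˣ) : K)) = 1 := by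
          rw [← NumberField.Units.coe_mul, mul_inv_cancel, NumberField.Units.coe_one]
        rw [h2, map_one]
      rw [h1]
      exact (RingOfIntegers.isIntegral_coe ((u⁻¹ : (𝓞 K)ˣ) : 𝓞 K)).map (S i).toIntAlgHom
    · intro h1
      apply hlog i hi
      rw [h1, Real.log_one]
  · intro h3 i j hi hj hij
    rw [hval i hi, hval j hj]
    have key : Real.log |S i (u : K)| + Real.log |S j (u : K)| ≠ 0 := by
      have hthird : ∀ k, minpoly ℚ (x k) = f → k ≠ i1 →
          0 < Real.log |S i1 (u : K)| + Real.log |S k (u : K)| := by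
        intro k hk hk1
        have h4 : ∃ l, minpoly ℚ (x l) = f ∧ l ≠ i1 ∧ l ≠ k := by
          have h5 : 2 < (Finset.univ.filter (fun i => minpoly ℚ (x i) = f)).card := by omega
          have h6 : 0 < (((Finset.univ.filter (fun i => minpoly ℚ (x i) = f)).erase i1).erase
              k).card := by
            have h7 := Finset.pred_card_le_card_erase (s := (Finset.univ.filter
              (fun i => minpoly ℚ (x i) = f))) (a := i1)
            have h8 := Finset.pred_card_le_card_erase (s := (Finset.univ.filter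
              (fun i => minpoly ℚ (x i) = f)).erase i1) (a := k)
            omega
          obtain ⟨l, hl⟩ := Finset.card_pos.mp h6
          rw [Finset.mem_erase, Finset.mem_erase, Finset.mem_filter] at hl
          exact ⟨l, hl.2.2.2, hl.2.1, hl.1⟩
        obtain ⟨l, hl, hl1, hlk⟩ := h4
        exact hu3 (S k) (S l) (hSinj k i1 hk rfl hk1) (hSinj l i1 hl rfl hl1)
          (hSinj k l hk hl (Ne.symm hlk))
      by_cases hi1 : i = i1
      · have h4 := hthird j hj (fun h => hij (hi1.trans h.symm))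
        rw [hi1]
        exact h4.ne'
      · by_cases hj1 : j = i1
        · have h4 := hthird i hi hi1
          rw [hj1, add_comm]
          exact h4.ne'
        · have h4 := hu1 (S i) (hSinj i i1 hi rfl hi1)
          have h5 := hu1 (S j) (hSinj j i1 hj rfl hj1)
          linarith
    intro h1
    apply key
    rw [← Real.log_mul (abs_ne_zero.mpr (hne0 i hi)) (abs_ne_zero.mpr (hne0 j hj)), ← abs_mul, h1,
      Real.log_one]

end Uni

open Uni in
/-- **Package UNI** -/
theorem uni : Pool.Agent.P8H59.An.S_UNI := by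
  intro n G P x hx hP hdeg hadj
  classical
  have hprod0 : (∏ i, (X - C (x i)) : ℝ[X]) ≠ 0 :=
    Finset.prod_ne_zero_iff.mpr fun i _ => X_sub_C_ne_zero _
  have hP0 : P ≠ 0 := by
    rintro rfl
    rw [Polynomial.map_zero] at hP
    exact hprod0 hP.symm
  have hint : ∀ i, IsIntegral ℚ (x i) := by
    intro i
    refine IsAlgebraic.isIntegral ⟨P, hP0, ?_⟩
    have h1 : aeval (x i) P = (P.map (algebraMap ℚ ℝ)).eval (x i) := by
      rw [eval_map, aeval_def]
    rw [h1, hP, eval_prod, Finset.prod_eq_zero_iff]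
    exact ⟨i, Finset.mem_univ _, by simp⟩
  -- the classes
  let T : Finset ℚ[X] := Finset.univ.image (fun i => minpoly ℚ (x i))
  have hT : ∀ i, minpoly ℚ (x i) ∈ T := fun i => Finset.mem_image_of_mem _ (Finset.mem_univ i)
  have hTm : ∀ q : {q // q ∈ T}, ∃ i, minpoly ℚ (x i) = q.1 := by
    intro q
    obtain ⟨i, -, hi⟩ := Finset.mem_image.mp q.2
    exact ⟨i, hi⟩
  choose rp hrp using hTm
  have hcl : ∀ q : {q // q ∈ T}, ∃ g : ℚ[X], (∀ i, minpoly ℚ (x i) = q.1 →
        IsIntegral ℤ (aeval (x i) g) ∧ IsIntegral ℤ (aeval (x i) g)⁻¹ ∧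
        aeval (x i) g ≠ 0 ∧ |aeval (x i) g| ≠ 1) ∧
      (3 ≤ q.1.natDegree → ∀ i j, minpoly ℚ (x i) = q.1 →
        minpoly ℚ (x j) = q.1 → i ≠ j → |aeval (x i) g * aeval (x j) g| ≠ 1) := by
    intro q
    have h1 := class_lemma P x hx hP (rp q) (hdeg (rp q))
    rw [hrp q] at h1
    exact h1
  choose g hg1 hg2 using hcl
  let cls : Fin n → {q // q ∈ T} := fun i => ⟨minpoly ℚ (x i), hT i⟩
  -- the values
  let y : Fin n → ℝ := fun i => aeval (x i) (g (cls i))
  have hy1 : ∀ i, IsIntegral ℤ (y i) ∧ IsIntegral ℤ (y i)⁻¹ ∧ y i ≠ 0 ∧ |y i| ≠ 1 :=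
    fun i => hg1 (cls i) i rfl
  have ha0 : ∀ i, Real.log |y i| ≠ 0 := by
    intro i
    obtain ⟨-, -, h0, h1⟩ := hy1 i
    intro h2
    rcases Real.log_eq_zero.mp h2 with h3 | h3 | h3
    · exact h0 (abs_eq_zero.mp h3)
    · exact h1 h3
    · have := abs_nonneg (y i)
      linarith
  obtain ⟨B, hB1, hB⟩ : ∃ B : ℕ, 1 ≤ B ∧ ∀ i j, abs (Real.log |y i|) < B * abs (Real.log |y j|) := by
    have h1 : ∀ i j : Fin n, ∃ B : ℕ, abs (Real.log |y i|) / abs (Real.log |y j|) < B :=
      fun i j => exists_nat_gt _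
    choose b hb using h1
    refine ⟨1 + ∑ i, ∑ j, b i j, by omega, fun i j => ?_⟩
    have h2 : 0 < abs (Real.log |y j|) := abs_pos.mpr (ha0 j)
    have h3 := hb i j
    rw [div_lt_iff₀ h2] at h3
    refine h3.trans_le ?_
    refine mul_le_mul_of_nonneg_right ?_ h2.le
    have h4 : b i j ≤ ∑ i, ∑ j, b i j := by
      calc b i j ≤ ∑ j, b i j :=
            Finset.single_le_sum (f := fun j => b i j) (fun _ _ => Nat.zero_le _)
              (Finset.mem_univ j)
        _ ≤ _ := Finset.single_le_sum (f := fun i => ∑ j, b i j) (fun _ _ => Nat.zero_le _)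
              (Finset.mem_univ i)
    exact_mod_cast h4.trans (by omega)
  let e : {q // q ∈ T} → ℕ := fun q => (Fintype.equivFin {q // q ∈ T} q : ℕ)
  have he : Function.Injective e := by
    intro p q h
    exact (Fintype.equivFin {q // q ∈ T}).injective (Fin.ext h)
  let k : {q // q ∈ T} → ℕ := fun q => B ^ e q
  have hk : ∀ q, 1 ≤ k q := fun q => Nat.one_le_pow _ _ hB1
  -- the Chinese remainder theorem
  have hirr : ∀ q : {q // q ∈ T}, Irreducible q.1 ∧ q.1.Monic := by
    intro q
    rw [← hrp q]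
    exact ⟨minpoly.irreducible (hint _), minpoly.monic (hint _)⟩
  have hcop : Pairwise (Function.onFun IsCoprime
      (fun q : {q // q ∈ T} => Ideal.span ({q.1} : Set ℚ[X]))) := by
    intro p q hpq
    show IsCoprime (Ideal.span ({p.1} : Set ℚ[X])) (Ideal.span ({q.1} : Set ℚ[X]))
    rw [Ideal.isCoprime_span_singleton_iff]
    rw [(hirr p).1.coprime_iff_not_dvd]
    intro hd
    have h1 := (hirr p).1.associated_of_dvd (hirr q).1 hd
    exact hpq (Subtype.ext (eq_of_monic_of_associated (hirr p).2 (hirr q).2 h1))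
  obtain ⟨H, hH⟩ := Ideal.exists_forall_sub_mem_ideal hcop (fun q => g q ^ k q)
  have hval : ∀ i, aeval (x i) H = y i ^ k (cls i) := by
    intro i
    have h1 := hH (cls i)
    rw [Ideal.mem_span_singleton] at h1
    obtain ⟨w, hw⟩ := h1
    have h2 : H = g (cls i) ^ k (cls i) + minpoly ℚ (x i) * w := by
      have h3 : (cls i).1 = minpoly ℚ (x i) := rfl
      rw [← h3, ← hw]
      ring
    rw [h2, map_add, map_pow, map_mul, minpoly.aeval, zero_mul, add_zero]
  refine ⟨H, ?_, ?_⟩
  · intro i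
    rw [hval i]
    obtain ⟨h1, h2, h3, h4⟩ := hy1 i
    refine ⟨h1.pow _, ?_, pow_ne_zero _ h3, ?_⟩
    · rw [← inv_pow]
      exact h2.pow _
    · rw [abs_pow]
      intro h5
      have h6 := (pow_eq_one_iff_of_nonneg (abs_nonneg (y i)) (by
        have := hk (cls i); omega)).mp h5
      exact h4 h6
  · intro i j hij
    rw [hval i, hval j]
    by_cases hc : cls i = cls j
    · have hm : minpoly ℚ (x i) = minpoly ℚ (x j) := congrArg Subtype.val hc
      have h3 : 3 ≤ (minpoly ℚ (x i)).natDegree := hadj i j hij hm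
      have h4 := hg2 (cls i) h3 i j rfl hm.symm hij.ne
      have h5 : aeval (x j) (g (cls i)) = y j := by
        show _ = aeval (x j) (g (cls j))
        rw [hc]
      rw [h5] at h4
      rw [← hc, ← mul_pow, abs_pow]
      intro h6
      exact h4 ((pow_eq_one_iff_of_nonneg (abs_nonneg _) (by
        have := hk (cls i); omega)).mp h6)
    · have he' : e (cls i) ≠ e (cls j) := fun h => hc (he h)
      -- a general statement
      have gen : ∀ i j : Fin n, e (cls i) < e (cls j) →
          |y i ^ k (cls i) * y j ^ k (cls j)| ≠ 1 := by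
        intro i j hlt h1
        have h2 : (k (cls i) : ℝ) * Real.log |y i| + (k (cls j) : ℝ) * Real.log |y j| = 0 := by
          rw [abs_mul, abs_pow, abs_pow] at h1
          have h3 := congrArg Real.log h1
          rw [Real.log_one, Real.log_mul (pow_ne_zero _ (abs_ne_zero.mpr (hy1 i).2.2.1))
            (pow_ne_zero _ (abs_ne_zero.mpr (hy1 j).2.2.1)), Real.log_pow, Real.log_pow] at h3
          exact h3
        have h3 : (k (cls i) : ℝ) * abs (Real.log |y i|) = (k (cls j) : ℝ) * abs (Real.log |y j|) := by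
          have h4 : (k (cls i) : ℝ) * Real.log |y i| = -((k (cls j) : ℝ) * Real.log |y j|) := by
            linarith
          have h5 := congrArg abs h4
          rw [abs_neg, abs_mul, abs_mul, Nat.abs_cast, Nat.abs_cast] at h5
          exact h5
        have hBr : (1 : ℝ) ≤ B := by exact_mod_cast hB1
        have hBp : (0 : ℝ) < (B : ℝ) ^ e (cls i) := by positivity
        have h4 : (k (cls j) : ℝ) = (B : ℝ) ^ e (cls i) * (B : ℝ) ^ (e (cls j) - e (cls i)) := by
          show ((B ^ e (cls j) : ℕ) : ℝ) = _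
          rw [← pow_add]
          push_cast
          congr 1
          omega
        have h5 : (k (cls i) : ℝ) = (B : ℝ) ^ e (cls i) := by
          show ((B ^ e (cls i) : ℕ) : ℝ) = _
          push_cast
          rfl
        rw [h4, h5, mul_assoc] at h3
        have h6 := mul_left_cancel₀ hBp.ne' h3
        have h7 : (B : ℝ) ≤ (B : ℝ) ^ (e (cls j) - e (cls i)) :=
          le_self_pow₀ hBr (by omega)
        have h8 := hB i j
        have h9 : (B : ℝ) * abs (Real.log |y j|) ≤
            (B : ℝ) ^ (e (cls j) - e (cls i)) * abs (Real.log |y j|) :=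
          mul_le_mul_of_nonneg_right h7 (abs_nonneg _)
        linarith
      rcases lt_or_gt_of_ne he' with h | h
      · exact gen i j h
      · rw [mul_comm]
        exact gen j i h

end Pool.Agent.P8H48.An
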